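import Mathlib

set_option autoImplicit false

namespace Pool.Agent.H37.Star

/-- The number of maximal chains of `P`. -/
noncomputable def numMaxChains (P : Type) [PartialOrder P] : ℕ :=
  {C : Set P | IsMaxChain (· ≤ ·) C}.ncard

/-- The number of maximal chains of `P` that meet `A`. -/
noncomputable def numHit (P : Type) [PartialOrder P] (A : Set P) : ℕ :=
  {C : Set P | IsMaxChain (· ≤ ·) C ∧ (C ∩ A).Nonempty}.ncard

/-- Property `(∗)`: every subset `A` satisfies `|A| / |P| ≤ c_P(A) / |C(P)|`. -/
def PropStar (P : Type) [PartialOrder P] : Prop :=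
  ∀ A : Set P, (A.ncard : ℝ) / (Nat.card P : ℝ) ≤ (numHit P A : ℝ) / (numMaxChains P : ℝ)

/-- `P` is graded of rank `ℓ` by `r`: minimal elements have rank `0`, maximal elements have
rank `ℓ`, and the rank goes up by one along each cover. -/
structure IsGradedBy (P : Type) [PartialOrder P] (r : P → ℕ) (ℓ : ℕ) : Prop where
  min : ∀ x, IsMin x → r x = 0
  max : ∀ x, IsMax x → r x = ℓ
  covBy : ∀ x y, x ⋖ y → r y = r x + 1

end Pool.Agent.H37.Star
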