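import Mathlib
import Pool.Agent.H37.Star.Defs

set_option autoImplicit false

namespace Pool.Agent.H37.Star

open Classical

variable {Q : Type} [PartialOrder Q]

theorem maxChain_iff {C : Set Q} : IsMaxChain (· ≤ ·) C ↔
    IsChain (· ≤ ·) C ∧ ∀ z, IsChain (· ≤ ·) (insert z C) → z ∈ C := by
  constructor
  · intro h
    refine ⟨h.1, fun z hz => ?_⟩
    have := h.2 hz (Set.subset_insert z C)
    rw [this]
    exact Set.mem_insert z C
  · rintro ⟨h1, h2⟩
    refine ⟨h1, fun t ht hs => ?_⟩
    refine Set.Subset.antisymm hs fun z hz => h2 z ?_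
    exact ht.mono (Set.insert_subset hz hs)

/-- Maximal chains of the principal ideal of `x`. -/
def Low (x : Q) : Set (Set Q) :=
  {S | IsChain (· ≤ ·) S ∧ x ∈ S ∧ (∀ y ∈ S, y ≤ x) ∧
    ∀ z, z ≤ x → IsChain (· ≤ ·) (insert z S) → z ∈ S}

/-- Maximal chains of the principal filter of `x`. -/
def Upp (x : Q) : Set (Set Q) :=
  {S | IsChain (· ≤ ·) S ∧ x ∈ S ∧ (∀ y ∈ S, x ≤ y) ∧
    ∀ z, x ≤ z → IsChain (· ≤ ·) (insert z S) → z ∈ S}

noncomputable def dn (x : Q) : ℕ := (Low x).ncard

noncomputable def up (x : Q) : ℕ := (Upp x).ncard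

theorem isChain_insert_of {S : Set Q} (hS : IsChain (· ≤ ·) S) {z : Q}
    (h : ∀ b ∈ S, z ≤ b ∨ b ≤ z) : IsChain (· ≤ ·) (insert z S) :=
  hS.insert fun b hb _ => h b hb

theorem comparable_of_insert {S : Set Q} {z b : Q} (h : IsChain (· ≤ ·) (insert z S))
    (hb : b ∈ S) : z ≤ b ∨ b ≤ z := by
  by_cases hzb : z = b
  · exact Or.inl hzb.le
  · exact h (Set.mem_insert z S) (Set.mem_insert_of_mem _ hb) hzb

theorem dn_min {x : Q} (hx : IsMin x) : dn x = 1 := by
  unfold dn
  rw [Set.ncard_eq_one]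
  refine ⟨{x}, ?_⟩
  ext S
  simp only [Set.mem_singleton_iff]
  constructor
  · rintro ⟨_, h2, h3, _⟩
    refine Set.Subset.antisymm (fun y hy => ?_) (fun y hy => ?_)
    · exact le_antisymm (h3 y hy) (hx (h3 y hy))
    · rw [hy]; exact h2
  · rintro rfl
    refine ⟨IsChain.singleton, rfl, fun y hy => le_of_eq hy, fun z hz _ => ?_⟩
    exact le_antisymm hz (hx hz)

/-- Removing the top element. -/
theorem low_erase [Finite Q] {x : Q} (hx : ¬ IsMin x) {S : Set Q} (hS : S ∈ Low x) :
    ∃ y, y ⋖ x ∧ S \ {x} ∈ Low y := by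
  obtain ⟨h1, h2, h3, h4⟩ := hS
  have hne : (S \ {x}).Nonempty := by
    by_contra hcon
    rw [Set.not_nonempty_iff_eq_empty] at hcon
    obtain ⟨w, hw⟩ := not_isMin_iff.1 hx
    have hwS : w ∈ S := by
      refine h4 w hw.le (isChain_insert_of h1 fun b hb => Or.inl ?_)
      have hbx : b = x := by
        by_contra hne
        have : b ∈ S \ {x} := ⟨hb, hne⟩
        rw [hcon] at this
        exact this
      rw [hbx]
      exact hw.le
    have : w ∈ S \ {x} := ⟨hwS, hw.ne⟩
    rw [hcon] at this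
    exact this
  obtain ⟨y, hy1, hy2⟩ := (Set.toFinite (S \ {x})).exists_maximal hne
  have hymax : ∀ b ∈ S \ {x}, b ≤ y := by
    intro b hb
    by_cases hby : b = y
    · exact hby.le
    rcases h1 hb.1 hy1.1 hby with h5 | h5
    · exact h5
    · exact hy2 hb h5
  have hyx : y < x := lt_of_le_of_ne (h3 y hy1.1) hy1.2
  have hcov : y ⋖ x := by
    refine ⟨hyx, fun z hyz hzx => ?_⟩
    have hzS : z ∈ S := by
      refine h4 z hzx.le (isChain_insert_of h1 fun b hb => ?_)
      by_cases hbx : b = x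
      · rw [hbx]; exact Or.inl hzx.le
      · exact Or.inr ((hymax b ⟨hb, hbx⟩).trans hyz.le)
    exact absurd (hymax z ⟨hzS, hzx.ne⟩) (not_le_of_gt hyz)
  refine ⟨y, hcov, h1.mono Set.sdiff_subset, hy1, hymax, fun z hz hch => ?_⟩
  have hzS : z ∈ S := by
    refine h4 z (hz.trans hyx.le) (isChain_insert_of h1 fun b hb => ?_)
    by_cases hbx : b = x
    · rw [hbx]; exact Or.inl (hz.trans hyx.le)
    · exact comparable_of_insert hch ⟨hb, hbx⟩
  exact ⟨hzS, fun h => absurd hyx (not_lt_of_ge (h ▸ hz))⟩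

/-- Adding a top element. -/
theorem low_insert {x y : Q} (hxy : y ⋖ x) {S : Set Q} (hS : S ∈ Low y) :
    insert x S ∈ Low x ∧ x ∉ S := by
  obtain ⟨h1, h2, h3, h4⟩ := hS
  have hx : x ∉ S := fun h => absurd hxy.lt (not_lt_of_ge (h3 x h))
  refine ⟨⟨isChain_insert_of h1 fun b hb => Or.inr ((h3 b hb).trans hxy.le),
    Set.mem_insert _ _, ?_, ?_⟩, hx⟩
  · rintro b (rfl | hb)
    · exact le_rfl
    · exact (h3 b hb).trans hxy.le
  · intro z hz hch
    rcases comparable_of_insert hch (Set.mem_insert_of_mem x h2) with h5 | h5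
    · refine Or.inr (h4 z h5 (hch.mono ?_))
      exact Set.insert_subset_insert (Set.subset_insert _ _)
    · rcases h5.eq_or_lt with h6 | h6
      · rw [← h6]; exact Or.inr h2
      · left
        by_contra hzx
        exact hxy.2 h6 (lt_of_le_of_ne hz hzx)

theorem dn_rec [Fintype Q] {x : Q} (hx : ¬ IsMin x) :
    dn x = ∑ y ∈ Finset.univ.filter (fun y => y ⋖ x), dn y := by
  have hunion : Low x = ⋃ y ∈ Finset.univ.filter (fun y => y ⋖ x), (fun S => insert x S) '' Low y := by
    ext S
    simp only [Set.mem_iUnion, Finset.mem_filter, Finset.mem_univ, true_and, Set.mem_image,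
      exists_prop]
    constructor
    · intro hS
      obtain ⟨y, hy, h1⟩ := low_erase hx hS
      refine ⟨y, hy, S \ {x}, h1, ?_⟩
      rw [Set.insert_sdiff_singleton, Set.insert_eq_of_mem hS.2.1]
    · rintro ⟨y, hy, S', hS', rfl⟩
      exact (low_insert hy hS').1
  have hinj : ∀ y ∈ Finset.univ.filter (fun y => y ⋖ x),
      ((fun S => insert x S) '' Low y).ncard = dn y := by
    intro y hy
    refine Set.InjOn.ncard_image ?_
    intro S hS T hT hST
    have h1 := (low_insert (Finset.mem_filter.1 hy).2 hS).2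
    have h2 := (low_insert (Finset.mem_filter.1 hy).2 hT).2
    have h3 : insert x S \ {x} = insert x T \ {x} := by
      show insert x S \ {x} = insert x T \ {x}
      rw [show insert x S = insert x T from hST]
    rwa [Set.insert_sdiff_self_of_notMem h1, Set.insert_sdiff_self_of_notMem h2] at h3
  have hdisj : ∀ y ∈ Finset.univ.filter (fun y => y ⋖ x),
      ∀ z ∈ Finset.univ.filter (fun y => y ⋖ x), y ≠ z →
      Disjoint ((fun S => insert x S) '' Low y) ((fun S => insert x S) '' Low z) := by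
    intro y hy z hz hyz
    rw [Set.disjoint_left]
    rintro _ ⟨S, hS, rfl⟩ ⟨T, hT, hST⟩
    have h1 := (low_insert (Finset.mem_filter.1 hy).2 hS).2
    have h2 := (low_insert (Finset.mem_filter.1 hz).2 hT).2
    have h3 : S = T := by
      have h4 : insert x T \ {x} = insert x S \ {x} := by
        rw [show insert x T = insert x S from hST]
      rw [Set.insert_sdiff_self_of_notMem h1, Set.insert_sdiff_self_of_notMem h2] at h4
      exact h4.symm
    subst h3
    exact hyz (le_antisymm (hT.2.2.1 y hS.2.1) (hS.2.2.1 z hT.2.1))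
  unfold dn at *
  rw [hunion]
  have key : ∀ s : Finset Q, (∀ y ∈ s, y ∈ Finset.univ.filter (fun y => y ⋖ x)) →
      (⋃ y ∈ s, (fun S => insert x S) '' Low y).ncard = ∑ y ∈ s, (Low y).ncard := by
    intro s
    induction s using Finset.induction_on with
    | empty => intro _; simp
    | insert a s ha ih =>
      intro hs
      rw [Finset.set_biUnion_insert, Set.ncard_union_eq ?_ (Set.toFinite _) (Set.toFinite _),
        Finset.sum_insert ha, hinj a (hs a (Finset.mem_insert_self a s)),
        ih fun y hy => hs y (Finset.mem_insert_of_mem hy)]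
      rw [Set.disjoint_iUnion₂_right]
      intro y hy
      exact hdisj a (hs a (Finset.mem_insert_self a s)) y (hs y (Finset.mem_insert_of_mem hy))
        (fun h => ha (h ▸ hy))
  exact key _ fun y hy => hy

end Pool.Agent.H37.Star
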