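import Mathlib

set_option autoImplicit false

namespace Pool.Agent.H37.Star

/-- The `j`-th term of the binomial expansion of `(a + b) ^ (a + b)`. -/
def bterm (a b j : ℕ) : ℕ := (a + b).choose j * a ^ j * b ^ (a + b - j)

theorem bterm_step {a b j : ℕ} (hj : j < a + b) :
    bterm a b (j + 1) * ((j + 1) * b) = bterm a b j * ((a + b - j) * a) := by
  unfold bterm
  have h1 := Nat.choose_succ_right_eq (a + b) j
  have h2 : a + b - j = (a + b - (j + 1)) + 1 := by omega
  calc (a + b).choose (j + 1) * a ^ (j + 1) * b ^ (a + b - (j + 1)) * ((j + 1) * b)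
      = ((a + b).choose (j + 1) * (j + 1)) * a ^ (j + 1) * b ^ (a + b - (j + 1) + 1) := by ring
    _ = ((a + b).choose j * (a + b - j)) * a ^ (j + 1) * b ^ (a + b - j) := by rw [h1, ← h2]
    _ = _ := by ring

theorem bterm_up {a b j : ℕ} (hb : 0 < b) (hj : j < a) : bterm a b j ≤ bterm a b (j + 1) := by
  have h1 := bterm_step (a := a) (b := b) (j := j) (by omega)
  have h2 : (j + 1) * b ≤ (a + b - j) * a := by
    have h3 : j + 1 ≤ a := hj
    have h4 : b ≤ a + b - j := by omega
    calc (j + 1) * b ≤ a * (a + b - j) := Nat.mul_le_mul h3 h4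
      _ = _ := Nat.mul_comm _ _
  have h3 : bterm a b j * ((j + 1) * b) ≤ bterm a b (j + 1) * ((j + 1) * b) := by
    rw [h1]
    exact Nat.mul_le_mul_left _ h2
  exact Nat.le_of_mul_le_mul_right h3 (by positivity)

theorem bterm_down {a b j : ℕ} (hb : 0 < b) (hj : a ≤ j) (hj2 : j < a + b) :
    bterm a b (j + 1) ≤ bterm a b j := by
  have h1 := bterm_step (a := a) (b := b) (j := j) hj2
  have h2 : (a + b - j) * a ≤ (j + 1) * b := by
    have h3 : a ≤ j + 1 := by omega
    have h4 : a + b - j ≤ b := by omega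
    calc (a + b - j) * a ≤ b * (j + 1) := Nat.mul_le_mul h4 h3
      _ = _ := Nat.mul_comm _ _
  have h3 : bterm a b (j + 1) * ((j + 1) * b) ≤ bterm a b j * ((j + 1) * b) := by
    rw [h1]
    exact Nat.mul_le_mul_left _ h2
  exact Nat.le_of_mul_le_mul_right h3 (by positivity)

theorem bterm_le {a b : ℕ} (hb : 0 < b) {j : ℕ} (hj : j ≤ a + b) :
    bterm a b j ≤ bterm a b a := by
  by_cases h : j ≤ a
  · have key : ∀ d, ∀ i, i + d = a → bterm a b i ≤ bterm a b a := by
      intro d
      induction d with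
      | zero =>
        intro i hi
        have : i = a := by omega
        rw [this]
      | succ d ih =>
        intro i hi
        exact (bterm_up hb (by omega)).trans (ih (i + 1) (by omega))
    exact key (a - j) j (by omega)
  · have key : ∀ d, a + d ≤ a + b → bterm a b (a + d) ≤ bterm a b a := by
      intro d
      induction d with
      | zero => intro _; exact le_rfl
      | succ d ih =>
        intro hd
        have h1 : a ≤ a + d := Nat.le_add_right a d
        have h2 : a + d < a + b := by
          have : a + (d + 1) = a + d + 1 := rfl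
          omega
        exact (bterm_down hb h1 h2).trans (ih h2.le)
    have := key (j - a) (by omega)
    have h2 : a + (j - a) = j := by omega
    rwa [h2] at this

theorem pow_le_choose (a b : ℕ) :
    (a + b) ^ (a + b) ≤ (a + b + 1) * ((a + b).choose a * a ^ a * b ^ b) := by
  rcases Nat.eq_zero_or_pos b with rfl | hb
  · simp only [add_zero, Nat.choose_self, one_mul, pow_zero, mul_one]
    exact Nat.le_mul_of_pos_left _ (by omega)
  · rw [add_pow]
    have h1 : ∀ j ∈ Finset.range (a + b + 1), a ^ j * b ^ (a + b - j) * (a + b).choose j ≤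
        (a + b).choose a * a ^ a * b ^ b := by
      intro j hj
      have h2 := bterm_le (a := a) hb (j := j) (by
        have := Finset.mem_range.1 hj
        omega)
      unfold bterm at h2
      have h3 : a + b - a = b := by omega
      rw [h3] at h2
      calc a ^ j * b ^ (a + b - j) * (a + b).choose j
          = (a + b).choose j * a ^ j * b ^ (a + b - j) := by ring
        _ ≤ _ := h2
    refine (Finset.sum_le_sum h1).trans (le_of_eq ?_)
    rw [Finset.sum_const, Finset.card_range, smul_eq_mul]

/-- If `α ^ m ≤ (m K + 1) β ^ m` for all `m` then `α ≤ β`. -/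
theorem le_of_pow_le {α β : ℝ} (hα : 0 ≤ α) (hβ : 0 < β) (K : ℕ)
    (h : ∀ m : ℕ, 1 ≤ m → α ^ m ≤ ((m * K + 1 : ℕ) : ℝ) * β ^ m) : α ≤ β := by
  by_contra hcon
  push Not at hcon
  have hq : 1 < α / β := by rwa [one_lt_div hβ]
  have h1 : ∀ m : ℕ, 1 ≤ m → (α / β) ^ m ≤ ((m * K + 1 : ℕ) : ℝ) := by
    intro m hm
    rw [div_pow, div_le_iff₀ (by positivity)]
    exact h m hm
  have h2 := (tendsto_pow_const_div_const_pow_of_one_lt 1 hq)
  have h3 : Filter.Tendsto (fun n : ℕ => ((n * K + 1 : ℕ) : ℝ) / (α / β) ^ n) Filter.atTop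
      (nhds 0) := by
    have h4 : Filter.Tendsto (fun n : ℕ => (K : ℝ) * ((n : ℝ) ^ 1 / (α / β) ^ n) +
        ((n : ℝ) ^ 0 / (α / β) ^ n)) Filter.atTop (nhds ((K : ℝ) * 0 + 0)) :=
      (h2.const_mul _).add (tendsto_pow_const_div_const_pow_of_one_lt 0 hq)
    rw [mul_zero, add_zero] at h4
    refine h4.congr fun n => ?_
    push_cast
    ring
  have h5 := (h3.eventually (gt_mem_nhds (show (0 : ℝ) < 1 by norm_num))).and
    (Filter.eventually_ge_atTop 1)
  obtain ⟨m, hm1, hm2⟩ := h5.exists
  have h6 : (0 : ℝ) < (α / β) ^ m := by positivity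
  rw [div_lt_one h6] at hm1
  exact absurd (h1 m hm2) (not_le_of_gt hm1)

/-- Equality in the arithmetic-geometric mean inequality. -/
theorem all_one {ι : Type} [Fintype ι] (u : ι → ℝ) (hu : ∀ i, 0 < u i)
    (hsum : ∑ i, u i = Fintype.card ι) (hprod : 1 ≤ ∏ i, u i) (i : ι) : u i = 1 := by
  have h1 : 0 ≤ ∑ i, Real.log (u i) := by
    rw [← Real.log_prod fun i _ => (hu i).ne']
    exact Real.log_nonneg hprod
  have h2 : ∑ i, (u i - 1 - Real.log (u i)) ≤ 0 := by
    rw [Finset.sum_sub_distrib, Finset.sum_sub_distrib, hsum]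
    simp
    exact h1
  have h3 : ∀ j ∈ Finset.univ, 0 ≤ u j - 1 - Real.log (u j) := by
    intro j _
    have := Real.log_le_sub_one_of_pos (hu j)
    linarith
  have h4 : u i - 1 - Real.log (u i) ≤ 0 :=
    (Finset.single_le_sum h3 (Finset.mem_univ i)).trans h2
  by_contra hne
  have := Real.log_lt_sub_one_of_pos (hu i) hne
  linarith

end Pool.Agent.H37.Star
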