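import Mathlib
import Pool.Agent.H37.Star.Low

set_option autoImplicit false

namespace Pool.Agent.H37.Star

open Classical

variable {Q : Type} [PartialOrder Q]

theorem chain_le_or {S : Set Q} (h : IsChain (· ≤ ·) S) {a b : Q} (ha : a ∈ S) (hb : b ∈ S) :
    a ≤ b ∨ b ≤ a := by
  by_cases hab : a = b
  · exact Or.inl hab.le
  · exact h ha hb hab

theorem split_eq (x : Q) : {C : Set Q | IsMaxChain (· ≤ ·) C ∧ x ∈ C} =
    (fun p : Set Q × Set Q => p.1 ∪ p.2) '' (Low x ×ˢ Upp x) := by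
  ext C
  simp only [Set.mem_ofPred_eq, Set.mem_image, Set.mem_prod, Prod.exists]
  constructor
  · rintro ⟨hC, hx⟩
    obtain ⟨h1, h2⟩ := maxChain_iff.1 hC
    refine ⟨C ∩ {y | y ≤ x}, C ∩ {y | x ≤ y}, ⟨⟨?_, ⟨hx, le_rfl⟩, fun y hy => hy.2, ?_⟩,
      ⟨?_, ⟨hx, le_rfl⟩, fun y hy => hy.2, ?_⟩⟩, ?_⟩
    · exact h1.mono Set.inter_subset_left
    · intro z hz hch
      refine ⟨h2 z (isChain_insert_of h1 fun b hb => ?_), hz⟩
      rcases chain_le_or h1 hb hx with h3 | h3
      · exact comparable_of_insert hch ⟨hb, h3⟩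
      · exact Or.inl (le_trans hz h3)
    · exact h1.mono Set.inter_subset_left
    · intro z hz hch
      refine ⟨h2 z (isChain_insert_of h1 fun b hb => ?_), hz⟩
      rcases chain_le_or h1 hb hx with h3 | h3
      · exact Or.inr (le_trans h3 hz)
      · exact comparable_of_insert hch ⟨hb, h3⟩
    · rw [← Set.inter_union_distrib_left]
      refine Set.inter_eq_left.2 fun y hy => ?_
      exact chain_le_or h1 hy hx
  · rintro ⟨S, T, ⟨⟨s1, s2, s3, s4⟩, ⟨t1, t2, t3, t4⟩⟩, rfl⟩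
    have hch : IsChain (· ≤ ·) (S ∪ T) := by
      rintro a (ha | ha) b (hb | hb) hab
      · exact s1 ha hb hab
      · exact Or.inl ((s3 a ha).trans (t3 b hb))
      · exact Or.inr ((s3 b hb).trans (t3 a ha))
      · exact t1 ha hb hab
    refine ⟨maxChain_iff.2 ⟨hch, fun z hz => ?_⟩, Or.inl s2⟩
    rcases comparable_of_insert hz (Set.mem_union_left T s2) with h1 | h1
    · exact Or.inl (s4 z h1 (hz.mono (Set.insert_subset_insert Set.subset_union_left)))
    · exact Or.inr (t4 z h1 (hz.mono (Set.insert_subset_insert Set.subset_union_right)))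

theorem split_card [Finite Q] (x : Q) :
    {C : Set Q | IsMaxChain (· ≤ ·) C ∧ x ∈ C}.ncard = dn x * up x := by
  rw [split_eq, Set.InjOn.ncard_image, Set.ncard_prod]
  · rfl
  · rintro ⟨S, T⟩ ⟨hS, hT⟩ ⟨S', T'⟩ ⟨hS', hT'⟩ h
    have h0 : S ∪ T = S' ∪ T' := h
    have key1 : ∀ (A B : Set Q), A ∈ Low x → B ∈ Upp x → A = (A ∪ B) ∩ {y | y ≤ x} := by
      intro A B hA hB
      ext y
      constructor
      · intro hy
        exact ⟨Or.inl hy, hA.2.2.1 y hy⟩
      · rintro ⟨hy | hy, hyx⟩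
        · exact hy
        · rw [le_antisymm hyx (hB.2.2.1 y hy)]
          exact hA.2.1
    have key2 : ∀ (A B : Set Q), A ∈ Low x → B ∈ Upp x → B = (A ∪ B) ∩ {y | x ≤ y} := by
      intro A B hA hB
      ext y
      constructor
      · intro hy
        exact ⟨Or.inr hy, hB.2.2.1 y hy⟩
      · rintro ⟨hy | hy, hyx⟩
        · rw [le_antisymm (hA.2.2.1 y hy) hyx]
          exact hB.2.1
        · exact hy
    have e1 : S = S' := by
      rw [key1 S T hS hT, h0]
      exact (key1 S' T' hS' hT').symm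
    have e2 : T = T' := by
      rw [key2 S T hS hT, h0]
      exact (key2 S' T' hS' hT').symm
    exact Prod.ext e1 e2

theorem numHit_singleton [Finite Q] (x : Q) : numHit Q {x} = dn x * up x := by
  rw [← split_card]
  unfold numHit
  congr 1
  ext C
  simp [Set.inter_singleton_nonempty]

theorem upp_eq_low (x : Q) : Upp x = (Low (Q := Qᵒᵈ) (OrderDual.toDual x) : Set (Set Q)) := by
  ext S
  constructor
  · rintro ⟨h1, h2, h3, h4⟩
    exact ⟨h1.symm, h2, h3, fun z hz hch => h4 z hz hch.symm⟩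
  · rintro ⟨h1, h2, h3, h4⟩
    exact ⟨h1.symm, h2, h3, fun z hz hch => h4 z hz hch.symm⟩

theorem up_eq_dn (x : Q) : up x = dn (Q := Qᵒᵈ) (OrderDual.toDual x) := by
  unfold up dn
  rw [upp_eq_low]
  rfl

theorem up_max {x : Q} (hx : IsMax x) : up x = 1 := by
  rw [up_eq_dn]
  exact dn_min hx.toDual

theorem up_rec [Fintype Q] {x : Q} (hx : ¬ IsMax x) :
    up x = ∑ y ∈ Finset.univ.filter (fun y => x ⋖ y), up y := by
  rw [up_eq_dn, dn_rec (Q := Qᵒᵈ) (x := OrderDual.toDual x) (fun h => hx h.ofDual)]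
  refine Finset.sum_bij' (fun y _ => OrderDual.ofDual y) (fun y _ => OrderDual.toDual y)
    ?_ ?_ ?_ ?_ ?_
  · intro y hy
    rw [Finset.mem_filter] at hy ⊢
    exact ⟨Finset.mem_univ _, hy.2.ofDual⟩
  · intro y hy
    rw [Finset.mem_filter] at hy ⊢
    exact ⟨Finset.mem_univ _, hy.2.toDual⟩
  · intro y _; rfl
  · intro y _; rfl
  · intro y _
    rw [up_eq_dn]
    rfl

end Pool.Agent.H37.Star
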