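import Mathlib
import Pool.Agent.H37.Star.Split

set_option autoImplicit false

namespace Pool.Agent.H37.Star

open Classical

variable {Q : Type} [PartialOrder Q] {r : Q → ℕ} {ℓ : ℕ}

theorem IsGradedBy.lt [Finite Q] (h : IsGradedBy Q r ℓ) {x y : Q} (hxy : x < y) :
    r x < r y := by
  induction x using WellFoundedGT.induction with
  | ind x ih =>
    obtain ⟨z, hz, hzy⟩ := exists_covBy_le_of_lt hxy
    have h1 := h.covBy x z hz
    rcases hzy.eq_or_lt with rfl | h2
    · omega
    · have := ih z hz.lt h2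
      omega

theorem IsGradedBy.le_top [Finite Q] (h : IsGradedBy Q r ℓ) (x : Q) : r x ≤ ℓ := by
  induction x using WellFoundedGT.induction with
  | ind x ih =>
    by_cases hx : IsMax x
    · exact (h.max x hx).le
    · obtain ⟨y, hy⟩ := not_isMax_iff.1 hx
      have h1 := ih y hy
      have h2 := h.lt hy
      omega

theorem IsGradedBy.isMax [Finite Q] (h : IsGradedBy Q r ℓ) {x : Q} (hx : r x = ℓ) : IsMax x := by
  by_contra hcon
  obtain ⟨y, hy⟩ := not_isMax_iff.1 hcon
  have h1 := h.lt hy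
  have h2 := h.le_top y
  omega

theorem IsGradedBy.isMin [Finite Q] (h : IsGradedBy Q r ℓ) {x : Q} (hx : r x = 0) : IsMin x := by
  by_contra hcon
  obtain ⟨y, hy⟩ := not_isMin_iff.1 hcon
  have h1 := h.lt hy
  omega

theorem IsGradedBy.meets [Finite Q] [Nonempty Q] (h : IsGradedBy Q r ℓ) {C : Set Q}
    (hC : IsMaxChain (· ≤ ·) C) {k : ℕ} (hk : k ≤ ℓ) : ∃ y ∈ C, r y = k := by
  obtain ⟨h1, h2⟩ := maxChain_iff.1 hC
  have hne : C.Nonempty := hC.nonempty_iff.1 inferInstance
  obtain ⟨m, hm, hmin⟩ := (Set.toFinite C).exists_minimal hne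
  have hml : ∀ b ∈ C, m ≤ b := by
    intro b hb
    rcases chain_le_or h1 hm hb with h3 | h3
    · exact h3
    · exact hmin hb h3
  have hmmin : IsMin m := by
    by_contra hcon
    obtain ⟨w, hw⟩ := not_isMin_iff.1 hcon
    have hwC := h2 w (isChain_insert_of h1 fun b hb => Or.inl (hw.le.trans (hml b hb)))
    exact absurd (hml w hwC) (not_le_of_gt hw)
  set T : Set Q := {y | y ∈ C ∧ r y ≤ k} with hT
  have hTne : T.Nonempty := ⟨m, hm, by rw [h.min m hmmin]; exact Nat.zero_le _⟩
  obtain ⟨y, hy, hymax⟩ := (Set.toFinite T).exists_maximal hTne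
  by_cases hyk : r y = k
  · exact ⟨y, hy.1, hyk⟩
  exfalso
  have hylt : r y < k := lt_of_le_of_ne hy.2 hyk
  have hnmax : ¬ IsMax y := by
    intro hmx
    have := h.max y hmx
    omega
  have hex : ∃ c ∈ C, y < c := by
    by_contra hcon
    push Not at hcon
    obtain ⟨w, hw⟩ := not_isMax_iff.1 hnmax
    have hCy : ∀ b ∈ C, b ≤ y := by
      intro b hb
      rcases chain_le_or h1 hy.1 hb with h3 | h3
      · rcases h3.eq_or_lt with h4 | h4
        · exact h4.ge
        · exact absurd h4 (hcon b hb)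
      · exact h3
    have hwC := h2 w (isChain_insert_of h1 fun b hb => Or.inr ((hCy b hb).trans hw.le))
    exact hcon w hwC hw
  set U : Set Q := {c | c ∈ C ∧ y < c} with hU
  have hUne : U.Nonempty := by
    obtain ⟨c, hc, hyc⟩ := hex
    exact ⟨c, hc, hyc⟩
  obtain ⟨z, hz, hzmin⟩ := (Set.toFinite U).exists_minimal hUne
  have hzl : ∀ b ∈ C, y < b → z ≤ b := by
    intro b hb hyb
    rcases chain_le_or h1 hz.1 hb with h3 | h3
    · exact h3
    · exact hzmin ⟨hb, hyb⟩ h3
  have hcov : y ⋖ z := by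
    refine ⟨hz.2, fun u hyu huz => ?_⟩
    have huC : u ∈ C := by
      refine h2 u (isChain_insert_of h1 fun b hb => ?_)
      rcases chain_le_or h1 hy.1 hb with h3 | h3
      · rcases h3.eq_or_lt with h4 | h4
        · right; rw [← h4]; exact hyu.le
        · left; exact huz.le.trans (hzl b hb h4)
      · exact Or.inr (h3.trans hyu.le)
    exact absurd (hzl u huC hyu) (not_le_of_gt huz)
  have hrz := h.covBy y z hcov
  have : z ≤ y := by
    have hzT : z ∈ T := ⟨hz.1, by omega⟩
    exact hymax hzT hz.2.le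
  exact absurd this (not_le_of_gt hz.2)

theorem level_card [Fintype Q] (h : IsGradedBy Q r ℓ) {k : ℕ} (s : Finset Q)
    (hs : ∀ x ∈ s, r x = k) :
    {C : Set Q | IsMaxChain (· ≤ ·) C ∧ ∃ x ∈ s, x ∈ C}.ncard = ∑ x ∈ s, dn x * up x := by
  induction s using Finset.induction_on with
  | empty => simp
  | insert a s ha ih =>
    rw [Finset.sum_insert ha, ← ih fun x hx => hs x (Finset.mem_insert_of_mem hx), ← split_card,
      ← Set.ncard_union_eq ?_ (Set.toFinite _) (Set.toFinite _)]
    · congr 1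
      ext C
      simp only [Set.mem_ofPred_eq, Set.mem_union, Finset.mem_insert]
      constructor
      · rintro ⟨hC, x, rfl | hx, hxC⟩
        · exact Or.inl ⟨hC, hxC⟩
        · exact Or.inr ⟨hC, x, hx, hxC⟩
      · rintro (⟨hC, hxC⟩ | ⟨hC, x, hx, hxC⟩)
        · exact ⟨hC, a, Or.inl rfl, hxC⟩
        · exact ⟨hC, x, Or.inr hx, hxC⟩
    · rw [Set.disjoint_left]
      rintro C ⟨hC, haC⟩ ⟨_, x, hx, hxC⟩
      have hra := hs a (Finset.mem_insert_self a s)
      have hrx := hs x (Finset.mem_insert_of_mem hx)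
      have hax : a ≠ x := fun h => ha (h ▸ hx)
      rcases hC.1 haC hxC hax with h1 | h1
      · have := h.lt (lt_of_le_of_ne h1 hax)
        omega
      · have := h.lt (lt_of_le_of_ne h1 hax.symm)
        omega

theorem numMaxChains_level [Fintype Q] [Nonempty Q] (h : IsGradedBy Q r ℓ) {k : ℕ}
    (hk : k ≤ ℓ) :
    numMaxChains Q = ∑ x ∈ Finset.univ.filter (fun x => r x = k), dn x * up x := by
  rw [← level_card h _ fun x hx => (Finset.mem_filter.1 hx).2]
  unfold numMaxChains
  congr 1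
  ext C
  simp only [Set.mem_ofPred_eq, Finset.mem_filter, Finset.mem_univ, true_and]
  constructor
  · intro hC
    obtain ⟨y, hy, hyk⟩ := h.meets hC hk
    exact ⟨hC, y, hyk, hy⟩
  · exact fun h => h.1

theorem numHit_ge [Fintype Q] (h : IsGradedBy Q r ℓ) (A : Set Q) (k : ℕ) :
    ∑ x ∈ Finset.univ.filter (fun x => r x = k ∧ x ∈ A), dn x * up x ≤ numHit Q A := by
  rw [← level_card h _ fun x hx => (Finset.mem_filter.1 hx).2.1]
  refine Set.ncard_le_ncard ?_ (Set.toFinite _)
  rintro C ⟨hC, x, hx, hxC⟩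
  exact ⟨hC, x, hxC, (Finset.mem_filter.1 hx).2.2⟩

theorem dn_pos [Finite Q] (x : Q) : 0 < dn x := by
  have : Fintype Q := Fintype.ofFinite Q
  induction x using WellFoundedLT.induction with
  | ind x ih =>
    by_cases hx : IsMin x
    · rw [dn_min hx]; exact one_pos
    · rw [dn_rec hx]
      obtain ⟨w, hw⟩ := not_isMin_iff.1 hx
      obtain ⟨y, _, hy⟩ := exists_le_covBy_of_lt hw
      refine Finset.sum_pos' (fun z _ => Nat.zero_le _) ⟨y, ?_, ih y hy.lt⟩
      exact Finset.mem_filter.2 ⟨Finset.mem_univ _, hy⟩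

theorem up_pos [Finite Q] (x : Q) : 0 < up x := by
  rw [up_eq_dn]
  exact dn_pos _

end Pool.Agent.H37.Star
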