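import Mathlib
import Pool.Agent.H37.Star.Rank

set_option autoImplicit false
set_option linter.unusedSectionVars false

namespace Pool.Agent.H37.Star

open Classical

section unique

variable {Q : Type} [PartialOrder Q] {r : Q → ℕ} {ℓ : ℕ}

theorem dn_unique [Fintype Q] (h : IsGradedBy Q r ℓ) (g : Q → ℝ) (h0 : ∀ x, IsMin x → g x = 1)
    (h1 : ∀ x, ¬ IsMin x → (r x : ℝ) * g x = ∑ y ∈ Finset.univ.filter (fun y => y ⋖ x), g y)
    (x : Q) : (dn x : ℝ) = (r x).factorial * g x := by
  induction x using WellFoundedLT.induction with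
  | ind x ih =>
    by_cases hx : IsMin x
    · rw [dn_min hx, h0 x hx, h.min x hx]
      simp
    · rw [dn_rec hx]
      push_cast
      have h2 : ∀ y ∈ Finset.univ.filter (fun y => y ⋖ x), (dn y : ℝ) =
          (r x - 1).factorial * g y := by
        intro y hy
        have hyx := (Finset.mem_filter.1 hy).2
        rw [ih y hyx.lt]
        have := h.covBy y x hyx
        have h3 : r y = r x - 1 := by omega
        rw [h3]
      rw [Finset.sum_congr rfl h2, ← Finset.mul_sum, ← h1 x hx]
      have hpos : 0 < r x := by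
        by_contra hcon
        exact hx (h.isMin (by omega))
      have h3 : ((r x).factorial : ℝ) = (r x : ℝ) * (r x - 1).factorial := by
        rw [← Nat.mul_factorial_pred hpos.ne']
        push_cast
        ring
      rw [h3]
      ring

theorem up_unique [Fintype Q] (h : IsGradedBy Q r ℓ) (g : Q → ℝ) (h0 : ∀ x, IsMax x → g x = 1)
    (h1 : ∀ x, ¬ IsMax x → ((ℓ - r x : ℕ) : ℝ) * g x =
      ∑ y ∈ Finset.univ.filter (fun y => x ⋖ y), g y)
    (x : Q) : (up x : ℝ) = (ℓ - r x).factorial * g x := by
  induction x using WellFoundedGT.induction with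
  | ind x ih =>
    by_cases hx : IsMax x
    · rw [up_max hx, h0 x hx, h.max x hx]
      simp
    · rw [up_rec hx]
      push_cast
      have hle := h.le_top x
      have hpos : 0 < ℓ - r x := by
        by_contra hcon
        exact hx (h.isMax (by omega))
      have h2 : ∀ y ∈ Finset.univ.filter (fun y => x ⋖ y), (up y : ℝ) =
          (ℓ - r x - 1).factorial * g y := by
        intro y hy
        have hyx := (Finset.mem_filter.1 hy).2
        rw [ih y hyx.lt]
        have := h.covBy x y hyx
        have h3 : ℓ - r y = ℓ - r x - 1 := by omega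
        rw [h3]
      rw [Finset.sum_congr rfl h2, ← Finset.mul_sum, ← h1 x hx]
      have h3 : ((ℓ - r x).factorial : ℝ) = ((ℓ - r x : ℕ) : ℝ) * (ℓ - r x - 1).factorial := by
        rw [← Nat.mul_factorial_pred hpos.ne']
        push_cast
        ring
      rw [h3]
      ring

/-- Normalised number of lower chains. -/
noncomputable def hd (r : Q → ℕ) (x : Q) : ℝ := (dn x : ℝ) / (r x).factorial

/-- Normalised number of upper chains. -/
noncomputable def hu (r : Q → ℕ) (ℓ : ℕ) (x : Q) : ℝ := (up x : ℝ) / (ℓ - r x).factorial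

theorem hd_rec [Fintype Q] (h : IsGradedBy Q r ℓ) (x : Q) :
    (r x : ℝ) * hd r x = ∑ y ∈ Finset.univ.filter (fun y => y ⋖ x), hd r y := by
  by_cases hx : IsMin x
  · rw [h.min x hx]
    symm
    rw [Nat.cast_zero, zero_mul]
    refine Finset.sum_eq_zero fun y hy => ?_
    exact absurd (Finset.mem_filter.1 hy).2.lt (hx.not_lt)
  · have hpos : 0 < r x := by
      by_contra hcon
      exact hx (h.isMin (by omega))
    have h2 : ∀ y ∈ Finset.univ.filter (fun y => y ⋖ x), hd r y =
        (dn y : ℝ) / (r x - 1).factorial := by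
      intro y hy
      have := h.covBy y x (Finset.mem_filter.1 hy).2
      have h3 : r y = r x - 1 := by omega
      unfold hd
      rw [h3]
    rw [Finset.sum_congr rfl h2, ← Finset.sum_div]
    unfold hd
    rw [dn_rec hx]
    have h3 : ((r x).factorial : ℝ) = (r x : ℝ) * (r x - 1).factorial := by
      rw [← Nat.mul_factorial_pred hpos.ne']
      push_cast
      ring
    rw [h3]
    push_cast
    have h4 : (r x : ℝ) ≠ 0 := by exact_mod_cast hpos.ne'
    have h5 : ((r x - 1).factorial : ℝ) ≠ 0 := by exact_mod_cast (Nat.factorial_pos _).ne'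
    field_simp

theorem hu_rec [Fintype Q] (h : IsGradedBy Q r ℓ) (x : Q) :
    ((ℓ - r x : ℕ) : ℝ) * hu r ℓ x = ∑ y ∈ Finset.univ.filter (fun y => x ⋖ y), hu r ℓ y := by
  by_cases hx : IsMax x
  · rw [h.max x hx, Nat.sub_self]
    symm
    rw [Nat.cast_zero, zero_mul]
    refine Finset.sum_eq_zero fun y hy => ?_
    exact absurd (Finset.mem_filter.1 hy).2.lt (hx.not_lt)
  · have hle := h.le_top x
    have hpos : 0 < ℓ - r x := by
      by_contra hcon
      exact hx (h.isMax (by omega))
    have h2 : ∀ y ∈ Finset.univ.filter (fun y => x ⋖ y), hu r ℓ y =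
        (up y : ℝ) / (ℓ - r x - 1).factorial := by
      intro y hy
      have := h.covBy x y (Finset.mem_filter.1 hy).2
      have h3 : ℓ - r y = ℓ - r x - 1 := by omega
      unfold hu
      rw [h3]
    rw [Finset.sum_congr rfl h2, ← Finset.sum_div]
    unfold hu
    rw [up_rec hx]
    have h3 : ((ℓ - r x).factorial : ℝ) = ((ℓ - r x : ℕ) : ℝ) * (ℓ - r x - 1).factorial := by
      rw [← Nat.mul_factorial_pred hpos.ne']
      push_cast
      ring
    rw [h3]
    push_cast
    have h4 : ((ℓ - r x : ℕ) : ℝ) ≠ 0 := by exact_mod_cast hpos.ne'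
    have h5 : ((ℓ - r x - 1).factorial : ℝ) ≠ 0 := by exact_mod_cast (Nat.factorial_pos _).ne'
    field_simp

end unique

variable {P : Type} [PartialOrder P] {r : P → ℕ} {ℓ : ℕ} {n : ℕ}

theorem isMin_pi {x : Fin n → P} : IsMin x ↔ ∀ i, IsMin (x i) := by
  constructor
  · intro h i
    by_contra hcon
    obtain ⟨w, hw⟩ := not_isMin_iff.1 hcon
    have h1 : Function.update x i w < x := by
      rw [Pi.lt_def]
      refine ⟨?_, i, by simpa using hw⟩
      rw [update_le_iff]
      exact ⟨hw.le, fun j _ => le_rfl⟩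
    exact h.not_lt h1
  · intro h y hy i
    exact h i (hy i)

theorem isMax_pi {x : Fin n → P} : IsMax x ↔ ∀ i, IsMax (x i) := by
  constructor
  · intro h i
    by_contra hcon
    obtain ⟨w, hw⟩ := not_isMax_iff.1 hcon
    have h1 : x < Function.update x i w := by
      rw [Pi.lt_def]
      refine ⟨?_, i, by simpa using hw⟩
      rw [le_update_iff]
      exact ⟨hw.le, fun j _ => le_rfl⟩
    exact h.not_lt h1
  · intro h y hy i
    exact h i (hy i)

theorem IsGradedBy.pi (h : IsGradedBy P r ℓ) (n : ℕ) :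
    IsGradedBy (Fin n → P) (fun x => ∑ i, r (x i)) (n * ℓ) := by
  refine ⟨?_, ?_, ?_⟩
  · intro x hx
    exact Finset.sum_eq_zero fun i _ => h.min _ (isMin_pi.1 hx i)
  · intro x hx
    rw [Finset.sum_congr rfl fun i _ => h.max _ (isMax_pi.1 hx i)]
    simp
  · intro x y hxy
    obtain ⟨i, hi, hne⟩ := Pi.covBy_iff.1 hxy
    rw [← Finset.add_sum_erase _ _ (Finset.mem_univ i),
      ← Finset.add_sum_erase Finset.univ (fun i => r (x i)) (Finset.mem_univ i),
      h.covBy _ _ hi]
    have : ∑ j ∈ Finset.univ.erase i, r (y j) = ∑ j ∈ Finset.univ.erase i, r (x j) :=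
      Finset.sum_congr rfl fun j hj => by rw [hne j (Finset.ne_of_mem_erase hj)]
    rw [this]
    ring

theorem sum_covBy_below [Fintype P] (x : Fin n → P) (f : (Fin n → P) → ℝ) :
    ∑ y ∈ Finset.univ.filter (fun y => y ⋖ x), f y =
      ∑ i, ∑ z ∈ Finset.univ.filter (fun z => z ⋖ x i), f (Function.update x i z) := by
  rw [Finset.sum_sigma']
  symm
  refine Finset.sum_bij (fun p _ => Function.update x p.1 p.2) ?_ ?_ ?_ ?_
  · rintro ⟨i, z⟩ hp
    rw [Finset.mem_sigma] at hp
    have hz := (Finset.mem_filter.1 hp.2).2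
    refine Finset.mem_filter.2 ⟨Finset.mem_univ _, ?_⟩
    rw [Pi.covBy_iff]
    exact ⟨i, by simpa using hz, fun j hj => by simp [hj]⟩
  · rintro ⟨i, z⟩ hp ⟨j, w⟩ hq heq
    rw [Finset.mem_sigma] at hp hq
    have hz := (Finset.mem_filter.1 hp.2).2
    have hw := (Finset.mem_filter.1 hq.2).2
    simp only at hz hw heq
    by_cases hij : i = j
    · subst hij
      have := congrFun heq i
      simp only [Function.update_self] at this
      rw [this]
    · exfalso
      have := congrFun heq i
      rw [Function.update_self, Function.update_of_ne hij] at this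
      exact hz.lt.ne this
  · intro y hy
    obtain ⟨i, hi, hne⟩ := Pi.covBy_iff.1 (Finset.mem_filter.1 hy).2
    refine ⟨⟨i, y i⟩, ?_, ?_⟩
    · rw [Finset.mem_sigma]
      exact ⟨Finset.mem_univ _, Finset.mem_filter.2 ⟨Finset.mem_univ _, hi⟩⟩
    · ext j
      by_cases hj : j = i
      · subst hj; simp
      · simp [hj, hne j hj]
  · intro p _; rfl

theorem sum_covBy_above [Fintype P] (x : Fin n → P) (f : (Fin n → P) → ℝ) :
    ∑ y ∈ Finset.univ.filter (fun y => x ⋖ y), f y =
      ∑ i, ∑ z ∈ Finset.univ.filter (fun z => x i ⋖ z), f (Function.update x i z) := by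
  rw [Finset.sum_sigma']
  symm
  refine Finset.sum_bij (fun p _ => Function.update x p.1 p.2) ?_ ?_ ?_ ?_
  · rintro ⟨i, z⟩ hp
    rw [Finset.mem_sigma] at hp
    have hz := (Finset.mem_filter.1 hp.2).2
    refine Finset.mem_filter.2 ⟨Finset.mem_univ _, ?_⟩
    rw [Pi.covBy_iff]
    exact ⟨i, by simpa using hz, fun j hj => by simp [hj]⟩
  · rintro ⟨i, z⟩ hp ⟨j, w⟩ hq heq
    rw [Finset.mem_sigma] at hp hq
    have hz := (Finset.mem_filter.1 hp.2).2
    have hw := (Finset.mem_filter.1 hq.2).2
    simp only at hz hw heq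
    by_cases hij : i = j
    · subst hij
      have := congrFun heq i
      simp only [Function.update_self] at this
      rw [this]
    · exfalso
      have := congrFun heq i
      rw [Function.update_self, Function.update_of_ne hij] at this
      exact hz.lt.ne this.symm
  · intro y hy
    obtain ⟨i, hi, hne⟩ := Pi.covBy_iff.1 (Finset.mem_filter.1 hy).2
    refine ⟨⟨i, y i⟩, ?_, ?_⟩
    · rw [Finset.mem_sigma]
      exact ⟨Finset.mem_univ _, Finset.mem_filter.2 ⟨Finset.mem_univ _, hi⟩⟩
    · ext j
      by_cases hj : j = i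
      · subst hj; simp
      · simp [hj, hne j hj]
  · intro p _; rfl

theorem prod_update (x : Fin n → P) (i : Fin n) (z : P) (f : P → ℝ) :
    ∏ j, f (Function.update x i z j) = f z * ∏ j ∈ Finset.univ.erase i, f (x j) := by
  rw [← Finset.mul_prod_erase _ _ (Finset.mem_univ i), Function.update_self]
  congr 1
  refine Finset.prod_congr rfl fun j hj => ?_
  rw [Function.update_of_ne (Finset.ne_of_mem_erase hj)]

theorem dn_pi [Fintype P] (h : IsGradedBy P r ℓ) (x : Fin n → P) :
    (dn x : ℝ) = (∑ i, r (x i)).factorial * ∏ i, hd r (x i) := by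
  refine dn_unique (h.pi n) (fun x => ∏ i, hd r (x i)) ?_ ?_ x
  · intro x hx
    refine Finset.prod_eq_one fun i _ => ?_
    have := isMin_pi.1 hx i
    unfold hd
    rw [dn_min this, h.min _ this]
    simp
  · intro x _
    rw [sum_covBy_below]
    push_cast
    rw [Finset.sum_mul]
    refine Finset.sum_congr rfl fun i _ => ?_
    simp only [prod_update]
    rw [← Finset.sum_mul, ← hd_rec h, ← Finset.mul_prod_erase _ _ (Finset.mem_univ i)]
    ring

theorem up_pi [Fintype P] (h : IsGradedBy P r ℓ) (x : Fin n → P) :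
    (up x : ℝ) = (n * ℓ - ∑ i, r (x i)).factorial * ∏ i, hu r ℓ (x i) := by
  refine up_unique (h.pi n) (fun x => ∏ i, hu r ℓ (x i)) ?_ ?_ x
  · intro x hx
    refine Finset.prod_eq_one fun i _ => ?_
    have := isMax_pi.1 hx i
    unfold hu
    rw [up_max this, h.max _ this]
    simp
  · intro x _
    rw [sum_covBy_above]
    have h1 : n * ℓ - ∑ i, r (x i) = ∑ i, (ℓ - r (x i)) := by
      have h2 : n * ℓ = ∑ i, (ℓ - r (x i)) + ∑ i, r (x i) := by
        rw [← Finset.sum_add_distrib,
          Finset.sum_congr rfl fun i _ => Nat.sub_add_cancel (h.le_top (x i))]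
        simp
      omega
    rw [h1]
    push_cast
    rw [Finset.sum_mul]
    refine Finset.sum_congr rfl fun i _ => ?_
    simp only [prod_update]
    rw [← Finset.sum_mul, ← hu_rec h, ← Finset.mul_prod_erase _ _ (Finset.mem_univ i)]
    ring

end Pool.Agent.H37.Star
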