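import Mathlib
import Pool.Agent.H37.Star.Power
import Pool.Agent.H37.Star.Mode

set_option autoImplicit false
set_option linter.unusedSectionVars false

namespace Pool.Agent.H37.Star

open Classical

section uniform

variable {Q : Type} [PartialOrder Q] {r : Q → ℕ} {ℓ : ℕ}

theorem numMaxChains_pos [Fintype Q] [Nonempty Q] :
    0 < numMaxChains Q := by
  obtain ⟨F⟩ : Nonempty (Flag Q) := inferInstance
  unfold numMaxChains
  exact Set.ncard_pos (Set.toFinite _) |>.2 ⟨F, F.maxChain⟩

/-- A graded poset whose maximal chains are spread evenly on each level has the property. -/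
theorem star_of_uniform [Fintype Q] [Nonempty Q] (h : IsGradedBy Q r ℓ) (ν : ℕ → ℕ)
    (hν : ∀ x, dn x * up x = ν (r x)) : PropStar Q := by
  intro A
  have hM := numMaxChains_pos (Q := Q)
  have hcard : 0 < Nat.card Q := Nat.card_pos
  rw [div_le_div_iff₀ (by exact_mod_cast hcard) (by exact_mod_cast hM)]
  have key : A.ncard * numMaxChains Q ≤ numHit Q A * Nat.card Q := by
    have hlev : ∀ k, ((Finset.univ.filter (fun x => r x = k ∧ x ∈ A)).card) * numMaxChains Q ≤
        (Finset.univ.filter (fun x => r x = k)).card * numHit Q A := by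
      intro k
      by_cases hk : k ≤ ℓ
      · have h1 := numMaxChains_level h hk
        have h2 : ∑ x ∈ Finset.univ.filter (fun x => r x = k), dn x * up x =
            (Finset.univ.filter (fun x => r x = k)).card * ν k := by
          rw [Finset.sum_congr rfl fun x hx => by
            rw [hν x, (Finset.mem_filter.1 hx).2], Finset.sum_const, smul_eq_mul]
        have h3 : ∑ x ∈ Finset.univ.filter (fun x => r x = k ∧ x ∈ A), dn x * up x =
            (Finset.univ.filter (fun x => r x = k ∧ x ∈ A)).card * ν k := by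
          rw [Finset.sum_congr rfl fun x hx => by
            rw [hν x, (Finset.mem_filter.1 hx).2.1], Finset.sum_const, smul_eq_mul]
        have h4 := numHit_ge h A k
        rw [h1, h2]
        rw [h3] at h4
        calc (Finset.univ.filter (fun x => r x = k ∧ x ∈ A)).card *
            ((Finset.univ.filter (fun x => r x = k)).card * ν k)
            = (Finset.univ.filter (fun x => r x = k)).card *
              ((Finset.univ.filter (fun x => r x = k ∧ x ∈ A)).card * ν k) := by ring
          _ ≤ _ := Nat.mul_le_mul_left _ h4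
      · have h1 : Finset.univ.filter (fun x => r x = k ∧ x ∈ A) = ∅ := by
          rw [Finset.filter_eq_empty_iff]
          rintro x _ ⟨hx, _⟩
          have := h.le_top x
          omega
        rw [h1]
        simp
    have hA : A.ncard = ∑ k ∈ Finset.range (ℓ + 1),
        (Finset.univ.filter (fun x => r x = k ∧ x ∈ A)).card := by
      have h1 : A.ncard = (Finset.univ.filter (fun x => x ∈ A)).card := by
        rw [← Set.ncard_coe_finset]
        congr 1
        ext x
        simp
      rw [h1, Finset.card_eq_sum_card_fiberwise (f := r) (t := Finset.range (ℓ + 1))]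
      · refine Finset.sum_congr rfl fun k _ => ?_
        rw [Finset.filter_filter]
        congr 1
        ext x
        simp [and_comm]
      · intro x _
        rw [Finset.mem_coe, Finset.mem_range]
        have := h.le_top x
        omega
    have hQ : Nat.card Q = ∑ k ∈ Finset.range (ℓ + 1),
        (Finset.univ.filter (fun x => r x = k)).card := by
      rw [Nat.card_eq_fintype_card, ← Finset.card_univ,
        Finset.card_eq_sum_card_fiberwise (f := r) (t := Finset.range (ℓ + 1))]
      intro x _
      rw [Finset.mem_coe, Finset.mem_range]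
      have := h.le_top x
      omega
    rw [hA, hQ, Finset.sum_mul, Finset.mul_sum]
    refine Finset.sum_le_sum fun k _ => ?_
    rw [Nat.mul_comm (numHit Q A)]
    exact hlev k
  exact_mod_cast key

end uniform

variable {P : Type} [PartialOrder P] {r : P → ℕ} {ℓ : ℕ}

/-- The weight of an element. -/
noncomputable def cw (r : P → ℕ) (ℓ : ℕ) (y : P) : ℝ :=
  (dn y * up y : ℕ) * (ℓ.choose (r y)) / numMaxChains P

theorem hdhu [Fintype P] (h : IsGradedBy P r ℓ) (y : P) :
    hd r y * hu r ℓ y = (dn y * up y : ℕ) * (ℓ.choose (r y)) / ℓ.factorial := by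
  unfold hd hu
  have h1 := Nat.choose_mul_factorial_mul_factorial (h.le_top y)
  have h2 : ((ℓ.choose (r y) : ℕ) : ℝ) * (r y).factorial * (ℓ - r y).factorial =
      ℓ.factorial := by exact_mod_cast h1
  have h3 : ((r y).factorial : ℝ) ≠ 0 := by exact_mod_cast (Nat.factorial_pos _).ne'
  have h4 : ((ℓ - r y).factorial : ℝ) ≠ 0 := by exact_mod_cast (Nat.factorial_pos _).ne'
  have h5 : ((ℓ.choose (r y) : ℕ) : ℝ) ≠ 0 := by
    exact_mod_cast (Nat.choose_pos (h.le_top y)).ne'
  rw [← h2]
  push_cast
  field_simp

theorem total_pi [Fintype P] [Nonempty P] (h : IsGradedBy P r ℓ) (n : ℕ) :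
    (numMaxChains (Fin n → P) : ℝ) =
      (n * ℓ).factorial * ((numMaxChains P : ℝ) / ℓ.factorial) ^ n := by
  rw [numMaxChains_level (h.pi n) (k := n * ℓ) le_rfl]
  push_cast
  have hset : (Finset.univ.filter (fun x : Fin n → P => ∑ i, r (x i) = n * ℓ)) =
      Fintype.piFinset (fun _ : Fin n => Finset.univ.filter (fun y => r y = ℓ)) := by
    ext x
    simp only [Finset.mem_filter, Finset.mem_univ, true_and, Fintype.mem_piFinset]
    constructor
    · intro hx i
      have h1 : ∑ i, r (x i) = ∑ _i : Fin n, ℓ := by rw [hx]; simp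
      exact (Finset.sum_eq_sum_iff_of_le fun i _ => h.le_top (x i)).1 h1 i (Finset.mem_univ i)
    · intro hx
      rw [Finset.sum_congr rfl fun i _ => hx i]
      simp
  have hterm : ∀ x ∈ Finset.univ.filter (fun x : Fin n → P => ∑ i, r (x i) = n * ℓ),
      (dn x : ℝ) * (up x : ℝ) = (n * ℓ).factorial * ∏ i, hd r (x i) * hu r ℓ (x i) := by
    intro x hx
    rw [dn_pi h, up_pi h, (Finset.mem_filter.1 hx).2, Nat.sub_self, Finset.prod_mul_distrib]
    simp
    ring
  rw [Finset.sum_congr rfl hterm, ← Finset.mul_sum, hset,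
    ← Finset.prod_univ_sum (fun _ : Fin n => Finset.univ.filter (fun y => r y = ℓ))
      (fun _ y => hd r y * hu r ℓ y)]
  rw [Finset.prod_const, Finset.card_univ, Fintype.card_fin]
  congr 2
  have h1 : ∀ y ∈ Finset.univ.filter (fun y => r y = ℓ), hd r y * hu r ℓ y =
      (dn y * up y : ℕ) / (ℓ.factorial : ℝ) := by
    intro y hy
    rw [hdhu h, (Finset.mem_filter.1 hy).2, Nat.choose_self]
    simp
  rw [Finset.sum_congr rfl h1, ← Finset.sum_div, numMaxChains_level h (k := ℓ) le_rfl]
  push_cast
  rfl

/-- The share of maximal chains through a point of the power. -/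
theorem share_pi [Fintype P] [Nonempty P] (h : IsGradedBy P r ℓ) (n : ℕ) (x : Fin n → P) :
    ((dn x * up x : ℕ) : ℝ) * (n * ℓ).choose (∑ i, r (x i)) =
      numMaxChains (Fin n → P) * ∏ i, cw r ℓ (x i) := by
  have hM : (0 : ℝ) < numMaxChains P := by exact_mod_cast numMaxChains_pos (Q := P)
  rw [total_pi h]
  push_cast
  rw [dn_pi h, up_pi h]
  have hle : ∑ i, r (x i) ≤ n * ℓ := (h.pi n).le_top x
  have h1 := Nat.choose_mul_factorial_mul_factorial hle
  have h2 : (((n * ℓ).choose (∑ i, r (x i)) : ℕ) : ℝ) * (∑ i, r (x i)).factorial *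
      (n * ℓ - ∑ i, r (x i)).factorial = (n * ℓ).factorial := by exact_mod_cast h1
  have h3 : ∏ i, cw r ℓ (x i) = (∏ i, (hd r (x i) * hu r ℓ (x i))) *
      ((ℓ.factorial : ℝ) / numMaxChains P) ^ n := by
    have h4 : ∀ i, cw r ℓ (x i) = (hd r (x i) * hu r ℓ (x i)) *
        ((ℓ.factorial : ℝ) / numMaxChains P) := by
      intro i
      rw [hdhu h]
      unfold cw
      have : (ℓ.factorial : ℝ) ≠ 0 := by exact_mod_cast (Nat.factorial_pos _).ne'
      field_simp
    rw [Finset.prod_congr rfl fun i _ => h4 i, Finset.prod_mul_distrib, Finset.prod_const,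
      Finset.card_univ, Fintype.card_fin]
  rw [h3, Finset.prod_mul_distrib, ← h2]
  have h5 : ((numMaxChains P : ℝ) / ℓ.factorial) ^ n * ((ℓ.factorial : ℝ) / numMaxChains P) ^ n
      = 1 := by
    rw [← mul_pow]
    have : (ℓ.factorial : ℝ) ≠ 0 := by exact_mod_cast (Nat.factorial_pos _).ne'
    have h6 : (numMaxChains P : ℝ) / ℓ.factorial * ((ℓ.factorial : ℝ) / numMaxChains P) = 1 := by
      field_simp
    rw [h6, one_pow]
  calc _ = ((((n * ℓ).choose (∑ i, r (x i)) : ℕ) : ℝ) * (∑ i, r (x i)).factorial *
      (n * ℓ - ∑ i, r (x i)).factorial) * ((∏ i, hd r (x i)) * ∏ i, hu r ℓ (x i)) * 1 := by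
        ring
    _ = _ := by rw [← h5]; ring

end Pool.Agent.H37.Star
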