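import Mathlib
import Pool.Agent.H37.Star.Main

set_option autoImplicit false
set_option linter.unusedSectionVars false

namespace Pool.Agent.H37.Star

open Classical

variable {P : Type} [PartialOrder P] {r : P → ℕ} {ℓ : ℕ}

/-- The weight equation in the form used below. -/
theorem weight_iff [Fintype P] [Nonempty P] (t : ℝ) (x : P) :
    (numHit P {x} : ℝ) * Nat.card P * (ℓ.choose (r x)) * t ^ (r x) * (1 - t) ^ (ℓ - r x) =
      numMaxChains P ↔
    cw r ℓ x * (Nat.card P * (t ^ (r x) * (1 - t) ^ (ℓ - r x))) = 1 := by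
  have hM : (numMaxChains P : ℝ) ≠ 0 := by exact_mod_cast (numMaxChains_pos (Q := P)).ne'
  rw [numHit_singleton]
  unfold cw
  rw [div_mul_eq_mul_div, div_eq_one_iff_eq hM]
  constructor
  · intro h
    rw [← h]
    ring
  · intro h
    rw [← h]
    ring

theorem sum_sub_rank [Fintype P] (h : IsGradedBy P r ℓ) {n : ℕ} (x : Fin n → P) :
    ∑ i, (ℓ - r (x i)) = n * ℓ - ∑ i, r (x i) := by
  have h1 : ∑ i, (ℓ - r (x i)) + ∑ i, r (x i) = n * ℓ := by
    rw [← Finset.sum_add_distrib,
      Finset.sum_congr rfl fun i _ => Nat.sub_add_cancel (h.le_top (x i))]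
    simp
  omega

theorem star_pi_of_weight [Fintype P] [Nonempty P] (h : IsGradedBy P r ℓ) (t : ℝ)
    (ht : ∀ x : P, (numHit P {x} : ℝ) * Nat.card P * (ℓ.choose (r x)) * t ^ (r x) *
      (1 - t) ^ (ℓ - r x) = numMaxChains P) (n : ℕ) : PropStar (Fin n → P) := by
  have hw : ∀ x : Fin n → P, ((dn x * up x : ℕ) : ℝ) *
      ((n * ℓ).choose (∑ i, r (x i)) * ((Nat.card P : ℝ) ^ n *
        (t ^ (∑ i, r (x i)) * (1 - t) ^ (n * ℓ - ∑ i, r (x i))))) =
      numMaxChains (Fin n → P) := by
    intro x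
    have h1 := share_pi h n x
    have h2 : (∏ i, cw r ℓ (x i)) * ((Nat.card P : ℝ) ^ n *
        (t ^ (∑ i, r (x i)) * (1 - t) ^ (n * ℓ - ∑ i, r (x i)))) = 1 := by
      have h3 : ∏ i, (cw r ℓ (x i) * (Nat.card P * (t ^ (r (x i)) * (1 - t) ^ (ℓ - r (x i))))) =
          1 := Finset.prod_eq_one fun i _ => (weight_iff t (x i)).1 (ht (x i))
      rw [Finset.prod_mul_distrib, Finset.prod_mul_distrib, Finset.prod_mul_distrib,
        Finset.prod_pow_eq_pow_sum, Finset.prod_pow_eq_pow_sum, sum_sub_rank h,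
        Finset.prod_const, Finset.card_univ, Fintype.card_fin] at h3
      exact h3
    rw [← mul_assoc, h1, mul_assoc, h2, mul_one]
  have hMn : (numMaxChains (Fin n → P) : ℝ) ≠ 0 := by
    exact_mod_cast (numMaxChains_pos (Q := Fin n → P)).ne'
  refine star_of_uniform (h.pi n) (fun k => if hk : ∃ x : Fin n → P, ∑ i, r (x i) = k then
    dn hk.choose * up hk.choose else 0) ?_
  intro x
  have hk : ∃ y : Fin n → P, ∑ i, r (y i) = ∑ i, r (x i) := ⟨x, rfl⟩
  simp only [hk, dif_pos]
  have h1 := hw x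
  have h2 := hw hk.choose
  rw [hk.choose_spec, ← h1] at h2
  have h3 : ((n * ℓ).choose (∑ i, r (x i)) * ((Nat.card P : ℝ) ^ n *
        (t ^ (∑ i, r (x i)) * (1 - t) ^ (n * ℓ - ∑ i, r (x i))))) ≠ 0 := by
    intro h0
    rw [h0, mul_zero] at h1
    exact hMn h1.symm
  have h4 := mul_right_cancel₀ h3 h2
  exact_mod_cast h4.symm

/-- The word that lists every element `m` times. -/
noncomputable def word (P : Type) [Fintype P] (m : ℕ) : Fin (Fintype.card P * m) → P :=
  fun i => (Fintype.equivFin P).symm (finProdFinEquiv.symm i).1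

theorem prod_word [Fintype P] (m : ℕ) (f : P → ℝ) :
    ∏ i, f (word P m i) = (∏ y, f y) ^ m := by
  unfold word
  rw [Equiv.prod_comp (finProdFinEquiv (m := Fintype.card P) (n := m)).symm
    (fun p => f ((Fintype.equivFin P).symm p.1)), Fintype.prod_prod_type]
  simp only [Finset.prod_const, Finset.card_univ, Fintype.card_fin]
  rw [Finset.prod_pow, Equiv.prod_comp (Fintype.equivFin P).symm f]

theorem sum_word [Fintype P] (m : ℕ) (f : P → ℕ) :
    ∑ i, f (word P m i) = m * ∑ y, f y := by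
  unfold word
  rw [Equiv.sum_comp (finProdFinEquiv (m := Fintype.card P) (n := m)).symm
    (fun p => f ((Fintype.equivFin P).symm p.1)), Fintype.sum_prod_type]
  simp only [Finset.sum_const, Finset.card_univ, Fintype.card_fin, smul_eq_mul]
  rw [← Finset.mul_sum, Equiv.sum_comp (Fintype.equivFin P).symm f]

theorem single_bound [Fintype P] [Nonempty P] (h : IsGradedBy P r ℓ) (m : ℕ)
    (hstar : PropStar (Fin (Fintype.card P * m) → P)) :
    (((m * (Fintype.card P * ℓ)).choose (m * ∑ y, r y) : ℕ) : ℝ) ≤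
      (∏ y : P, ((Fintype.card P : ℝ) * cw r ℓ y)) ^ m := by
  have h1 := hstar {word P m}
  rw [numHit_singleton, Set.ncard_singleton, Nat.card_eq_fintype_card] at h1
  have hMn : (0 : ℝ) < numMaxChains (Fin (Fintype.card P * m) → P) := by
    exact_mod_cast (numMaxChains_pos (Q := Fin (Fintype.card P * m) → P))
  have hc : (0 : ℝ) < Fintype.card (Fin (Fintype.card P * m) → P) := by
    exact_mod_cast Fintype.card_pos
  rw [div_le_div_iff₀ hc hMn] at h1
  have h2 := share_pi h (Fintype.card P * m) (word P m)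
  rw [sum_word] at h2
  have h3 : Fintype.card P * m * ℓ = m * (Fintype.card P * ℓ) := by ring
  rw [h3] at h2
  have hC : (0 : ℝ) ≤ ((m * (Fintype.card P * ℓ)).choose (m * ∑ y, r y) : ℕ) := by positivity
  have h4 := mul_le_mul_of_nonneg_right h1 hC
  have h5 : ((dn (word P m) * up (word P m) : ℕ) : ℝ) *
      (Fintype.card (Fin (Fintype.card P * m) → P)) *
      ((m * (Fintype.card P * ℓ)).choose (m * ∑ y, r y) : ℕ) =
      numMaxChains (Fin (Fintype.card P * m) → P) *
      ((∏ i, cw r ℓ (word P m i)) * Fintype.card (Fin (Fintype.card P * m) → P)) := by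
    rw [← mul_assoc (numMaxChains (Fin (Fintype.card P * m) → P) : ℝ), ← h2]
    ring
  rw [h5] at h4
  have h6 : (numMaxChains (Fin (Fintype.card P * m) → P) : ℝ) *
      ((m * (Fintype.card P * ℓ)).choose (m * ∑ y, r y) : ℕ) ≤
      numMaxChains (Fin (Fintype.card P * m) → P) *
      ((∏ i, cw r ℓ (word P m i)) * Fintype.card (Fin (Fintype.card P * m) → P)) := by
    refine le_trans (le_of_eq ?_) h4
    push_cast
    ring
  have h7 := le_of_mul_le_mul_left h6 hMn
  refine h7.trans (le_of_eq ?_)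
  rw [prod_word, Finset.prod_mul_distrib, mul_pow, Finset.prod_const, Finset.card_univ,
    ← pow_mul, Fintype.card_fun, Fintype.card_fin]
  push_cast
  ring

theorem weight_of_star [Fintype P] [Nonempty P] (h : IsGradedBy P r ℓ) (hℓ : 0 < ℓ)
    (hstar : ∀ n, 1 ≤ n → PropStar (Fin n → P)) :
    ∃ t : ℝ, 0 ≤ t ∧ t ≤ 1 ∧ ∀ x : P, (numHit P {x} : ℝ) * Nat.card P * (ℓ.choose (r x)) *
      t ^ (r x) * (1 - t) ^ (ℓ - r x) = numMaxChains P := by
  set N := Fintype.card P with hN
  set R := ∑ y : P, r y with hR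
  have hNpos : 0 < N := Fintype.card_pos
  -- the sum of ranks lies strictly between the extremes
  obtain ⟨lo, hlo⟩ : ∃ x : P, IsMin x := by
    obtain ⟨m, _, hm⟩ := (Set.toFinite (Set.univ : Set P)).exists_minimal Set.univ_nonempty
    exact ⟨m, fun b hb => hm (Set.mem_univ b) hb⟩
  obtain ⟨hi, hhi⟩ : ∃ x : P, IsMax x := by
    obtain ⟨m, _, hm⟩ := (Set.toFinite (Set.univ : Set P)).exists_maximal Set.univ_nonempty
    exact ⟨m, fun b hb => hm (Set.mem_univ b) hb⟩
  have hRpos : 0 < R := by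
    have h1 : r hi ≤ R := Finset.single_le_sum (f := r) (fun _ _ => Nat.zero_le _)
      (Finset.mem_univ hi)
    rw [h.max hi hhi] at h1
    omega
  have hRlt : R < N * ℓ := by
    have h1 : R < ∑ _y : P, ℓ := by
      refine Finset.sum_lt_sum (fun y _ => h.le_top y) ⟨lo, Finset.mem_univ _, ?_⟩
      rw [h.min lo hlo]
      exact hℓ
    rwa [Finset.sum_const, Finset.card_univ, smul_eq_mul] at h1
  obtain ⟨S, hS⟩ : ∃ S, R + S = N * ℓ := ⟨N * ℓ - R, by omega⟩
  have hSpos : 0 < S := by omega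
  have hcwpos : ∀ y : P, 0 < cw r ℓ y := by
    intro y
    unfold cw
    have h1 : (0 : ℝ) < numMaxChains P := by exact_mod_cast numMaxChains_pos (Q := P)
    have h2 : (0 : ℝ) < (dn y * up y : ℕ) := by exact_mod_cast Nat.mul_pos (dn_pos y) (up_pos y)
    have h3 : (0 : ℝ) < (ℓ.choose (r y) : ℕ) := by
      exact_mod_cast Nat.choose_pos (h.le_top y)
    positivity
  set lam : ℝ := ∏ y : P, ((N : ℝ) * cw r ℓ y) with hlam
  have hNpos' : (0 : ℝ) < N := by exact_mod_cast hNpos
  have hlampos : 0 < lam := Finset.prod_pos fun y _ => mul_pos hNpos' (hcwpos y)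
  have hRpos' : (0 : ℝ) < R := by exact_mod_cast hRpos
  have hSpos' : (0 : ℝ) < S := by exact_mod_cast hSpos
  have hmain : ((R : ℝ) + S) ^ (R + S) ≤ lam * ((R : ℝ) ^ R * (S : ℝ) ^ S) := by
    refine le_of_pow_le (by positivity) (by positivity) (R + S) ?_
    intro m hm
    have h1 := single_bound h m (hstar _ (Nat.mul_pos hNpos hm))
    rw [← hN, ← hR, ← hlam, ← hS] at h1
    have h2 : (m * R + m * S) ^ (m * R + m * S) ≤ (m * R + m * S + 1) *
        ((m * R + m * S).choose (m * R) * (m * R) ^ (m * R) * (m * S) ^ (m * S)) :=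
      pow_le_choose (m * R) (m * S)
    have hm' : 0 < m := hm
    have h3 : m ^ (m * (R + S)) * ((R + S) ^ (R + S)) ^ m ≤
        m ^ (m * (R + S)) * ((m * (R + S) + 1) *
        ((m * (R + S)).choose (m * R) * (R ^ R * S ^ S) ^ m)) := by
      calc m ^ (m * (R + S)) * ((R + S) ^ (R + S)) ^ m
          = (m * R + m * S) ^ (m * R + m * S) := by
            rw [← Nat.mul_add, mul_pow, ← pow_mul, Nat.mul_comm (R + S) m]
        _ ≤ _ := h2
        _ = _ := by
            rw [← Nat.mul_add, mul_pow, mul_pow, mul_pow, ← pow_mul, ← pow_mul,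
              Nat.mul_add m R S, pow_add, Nat.mul_comm R m, Nat.mul_comm S m]
            ring
    have h4 := Nat.le_of_mul_le_mul_left h3 (Nat.pow_pos hm')
    have h5 : (((R : ℝ) + S) ^ (R + S)) ^ m ≤ ((m * (R + S) + 1 : ℕ) : ℝ) *
        (((m * (R + S)).choose (m * R) : ℕ) * ((R : ℝ) ^ R * (S : ℝ) ^ S) ^ m) := by
      exact_mod_cast h4
    refine h5.trans ?_
    refine mul_le_mul_of_nonneg_left ?_ (by positivity)
    rw [mul_pow lam]
    exact mul_le_mul_of_nonneg_right h1 (by positivity)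
  set t : ℝ := R / (R + S) with ht
  have hRS : (0 : ℝ) < R + S := by positivity
  have ht1 : 1 - t = S / (R + S) := by
    rw [ht]
    field_simp
    ring
  have ht0 : 0 < t := by positivity
  have ht1' : 0 < 1 - t := by rw [ht1]; positivity
  refine ⟨t, ht0.le, by linarith, ?_⟩
  intro x
  rw [weight_iff]
  have hu := all_one (fun y : P => cw r ℓ y * (Nat.card P * (t ^ (r y) * (1 - t) ^ (ℓ - r y))))
    ?_ ?_ ?_ x
  · exact hu
  · intro y
    have := hcwpos y
    have h2 : (0 : ℝ) < Nat.card P := by exact_mod_cast Nat.card_pos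
    positivity
  · -- the sum
    have h1 : ∑ y : P, cw r ℓ y * (Nat.card P * (t ^ (r y) * (1 - t) ^ (ℓ - r y))) =
        Nat.card P * ∑ y : P, cw r ℓ y * (t ^ (r y) * (1 - t) ^ (ℓ - r y)) := by
      rw [Finset.mul_sum]
      exact Finset.sum_congr rfl fun y _ => by ring
    have h2 : ∑ y : P, cw r ℓ y * (t ^ (r y) * (1 - t) ^ (ℓ - r y)) =
        ∑ j ∈ Finset.range (ℓ + 1), t ^ j * (1 - t) ^ (ℓ - j) * (ℓ.choose j : ℕ) := by
      rw [← Finset.sum_fiberwise_of_maps_to (s := Finset.univ) (t := Finset.range (ℓ + 1))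
        (g := r) (fun y _ => Finset.mem_range.2 (Nat.lt_succ_of_le (h.le_top y)))]
      refine Finset.sum_congr rfl fun j hj => ?_
      have hj' : j ≤ ℓ := Nat.lt_succ_iff.1 (Finset.mem_range.1 hj)
      have h3 := numMaxChains_level h hj'
      have hM : (numMaxChains P : ℝ) ≠ 0 := by
        exact_mod_cast (numMaxChains_pos (Q := P)).ne'
      have h4 : ∀ y ∈ Finset.univ.filter (fun y => r y = j),
          cw r ℓ y * (t ^ (r y) * (1 - t) ^ (ℓ - r y)) =
          (dn y * up y : ℕ) * (t ^ j * (1 - t) ^ (ℓ - j) * (ℓ.choose j : ℕ) /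
            numMaxChains P) := by
        intro y hy
        rw [(Finset.mem_filter.1 hy).2]
        unfold cw
        rw [(Finset.mem_filter.1 hy).2]
        ring
      rw [Finset.sum_congr rfl h4, ← Finset.sum_mul]
      have h5 : (∑ y ∈ Finset.univ.filter (fun y => r y = j), ((dn y * up y : ℕ) : ℝ)) =
          numMaxChains P := by
        rw [h3]
        push_cast
        rfl
      rw [h5]
      field_simp
    have h3 := add_pow t (1 - t) ℓ
    rw [add_sub_cancel, one_pow] at h3
    rw [h1, h2, ← h3, Nat.card_eq_fintype_card, mul_one]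
  · -- the product
    rw [Finset.prod_congr rfl (g := fun y => ((N : ℝ) * cw r ℓ y) *
      (t ^ (r y) * (1 - t) ^ (ℓ - r y))) fun y _ => by
        rw [Nat.card_eq_fintype_card]; ring]
    rw [Finset.prod_mul_distrib, ← hlam, Finset.prod_mul_distrib, Finset.prod_pow_eq_pow_sum,
      Finset.prod_pow_eq_pow_sum, ← hR]
    have hSsum : ∑ y : P, (ℓ - r y) = S := by
      have h1 : ∑ y : P, (ℓ - r y) + ∑ y : P, r y = N * ℓ := by
        rw [← Finset.sum_add_distrib,
          Finset.sum_congr rfl fun i _ => Nat.sub_add_cancel (h.le_top i)]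
        simp [hN]
      omega
    rw [hSsum, ht1, ht, div_pow, div_pow]
    have h1 : (0 : ℝ) < ((R : ℝ) + S) ^ (R + S) := by positivity
    have h2 : lam * ((R : ℝ) ^ R / ((R : ℝ) + S) ^ R * ((S : ℝ) ^ S / ((R : ℝ) + S) ^ S)) =
        lam * ((R : ℝ) ^ R * (S : ℝ) ^ S) / ((R : ℝ) + S) ^ (R + S) := by
      rw [pow_add]
      field_simp
    rw [h2, le_div_iff₀ h1, one_mul]
    exact hmain

theorem powers [Finite P] [Nonempty P] (h : IsGradedBy P r ℓ) :
    (∀ n, 1 ≤ n → PropStar (Fin n → P)) ↔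
    ∃ t : ℝ, 0 ≤ t ∧ t ≤ 1 ∧ ∀ x : P, (numHit P {x} : ℝ) * Nat.card P * (ℓ.choose (r x)) *
      t ^ (r x) * (1 - t) ^ (ℓ - r x) = numMaxChains P := by
  have : Fintype P := Fintype.ofFinite P
  constructor
  · intro hs
    rcases Nat.eq_zero_or_pos ℓ with rfl | hℓ
    · refine ⟨0, le_rfl, zero_le_one, fun x => ?_⟩
      have hr : ∀ y, r y = 0 := fun y => Nat.le_zero.1 (h.le_top y)
      have h1 : numHit P {x} = 1 := by
        rw [numHit_singleton, dn_min (h.isMin (hr x)), up_max (h.isMax (hr x))]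
      have h2 : numMaxChains P = Nat.card P := by
        rw [numMaxChains_level h le_rfl, Finset.filter_true_of_mem (fun y _ => hr y),
          Finset.sum_congr rfl (g := fun _ => 1) fun y _ => by
            rw [dn_min (h.isMin (hr y)), up_max (h.isMax (hr y))]]
        simp
      rw [h1, h2, hr x]
      simp
    · exact weight_of_star h hℓ hs
  · rintro ⟨t, _, _, ht⟩ n _
    exact star_pi_of_weight h t ht n

end Pool.Agent.H37.Star
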